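import Pool.Agent.N287.WF.Stm

/-! Project WF, part M6: recurrence gives small elements of the stabilisers, and invariance under
the second flow. -/

set_option autoImplicit false

open scoped Topology ContDiff Manifold
open Set Filter Bundle

namespace Pool.Agent.N79.WF

open Pool.Agent.N287.WF

universe u v w

section

variable {M : Type v} {φ ψ : M → ℝ → M}

theorem act_zsmul (h0 : ∀ x, act φ ψ 0 x = x)
    (hadd : ∀ γ γ' x, act φ ψ (γ + γ') x = act φ ψ γ (act φ ψ γ' x)) {g : ℝ × ℝ} {x : M}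
    (hg : act φ ψ g x = x) (m : ℤ) : act φ ψ (m • g) x = x := by
  have hneg : act φ ψ (-g) x = x := by
    have h1 := hadd (-g) g x
    rw [neg_add_cancel, h0, hg] at h1
    exact h1.symm
  induction m using Int.induction_on with
  | zero => rw [zero_smul, h0]
  | succ i hi => rw [add_smul, one_smul, hadd, hg, hi]
  | pred i hi => rw [sub_smul, one_smul, sub_eq_add_neg, hadd, hneg, hi]

theorem small_aux [TopologicalSpace M] [CompactSpace M] {W : Type w} {f : M → W}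
    (h0 : ∀ x, act φ ψ 0 x = x)
    (hadd : ∀ γ γ' x, act φ ψ (γ + γ') x = act φ ψ γ (act φ ψ γ' x))
    (hf : ∀ γ x, f (act φ ψ γ x) = f x)
    (hloc : ∀ x₀ : M, ∃ U : Set M, U ∈ 𝓝 x₀ ∧ ∃ τ : M → ℝ × ℝ, ContinuousAt τ x₀ ∧ τ x₀ = 0 ∧
      (∀ x ∈ U, ∀ x' ∈ U, f x = f x' → act φ ψ (τ x - τ x') x' = x))
    (hper : ∀ x (t : ℝ), act φ ψ (t, 0) x = x → t = 0) (x : M) (δ : ℝ) (hδ : 0 < δ)
    (hδ1 : δ ≤ 1 / 2) : ∃ γ : ℝ × ℝ, act φ ψ γ x = x ∧ γ.2 ≠ 0 ∧ |γ.2| < δ := by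
  obtain ⟨y, hy⟩ : ∃ y, MapClusterPt y atTop (fun k : ℕ => act φ ψ ((k : ℝ), 0) x) := by
    obtain ⟨y, -, hy⟩ := (isCompact_univ : IsCompact (Set.univ : Set M)).exists_mapClusterPt
      (f := atTop) (u := fun k : ℕ => act φ ψ ((k : ℝ), 0) x) (by simp)
    exact ⟨y, hy⟩
  obtain ⟨U, hU, τ, hτc, hτ0, hτ⟩ := hloc y
  have hnb : {z | z ∈ U ∧ ‖τ z‖ < δ / 2} ∈ 𝓝 y := by
    have h1 : ∀ᶠ z in 𝓝 y, ‖τ z‖ < δ / 2 := by
      have h2 := hτc.norm.eventually_lt_const (v := ‖τ y‖) (u := δ / 2)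
      have h3 : ‖τ y‖ < δ / 2 := by rw [hτ0, norm_zero]; positivity
      exact hτc.norm.eventually_lt_const h3
    filter_upwards [hU, h1] with z hz1 hz2
    exact ⟨hz1, hz2⟩
  have hfr := mapClusterPt_iff_frequently.mp hy _ hnb
  rw [Filter.frequently_atTop] at hfr
  obtain ⟨k, -, hk1, hk2⟩ := hfr 0
  obtain ⟨l, hl, hl1, hl2⟩ := hfr (k + 1)
  obtain ⟨p, hp⟩ : ∃ p, p = τ (act φ ψ ((k : ℝ), 0) x) := ⟨_, rfl⟩
  obtain ⟨q, hq⟩ : ∃ q, q = τ (act φ ψ ((l : ℝ), 0) x) := ⟨_, rfl⟩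
  have h1 := hτ _ hk1 _ hl1 (by rw [hf, hf])
  rw [← hp, ← hq] at h1
  rw [← hp] at hk2
  rw [← hq] at hl2
  obtain ⟨g, hg⟩ : ∃ g : ℝ × ℝ, g = -((k : ℝ), (0 : ℝ)) + ((p - q) + ((l : ℝ), (0 : ℝ))) :=
    ⟨_, rfl⟩
  have hgx : act φ ψ g x = x := by
    rw [hg, hadd, hadd (p - q), h1, ← hadd, neg_add_cancel, h0]
  have hlk : (k : ℝ) + 1 ≤ l := by exact_mod_cast hl
  have e1 : g.1 = (l : ℝ) - k + (p.1 - q.1) := by
    rw [hg]; simp; ring
  have e2 : g.2 = p.2 - q.2 := by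
    rw [hg]; simp
  have b1 : |p.1| ≤ ‖p‖ := norm_fst_le p
  have b2 : |p.2| ≤ ‖p‖ := norm_snd_le p
  have b3 : |q.1| ≤ ‖q‖ := norm_fst_le q
  have b4 : |q.2| ≤ ‖q‖ := norm_snd_le q
  have c1 := abs_le.mp b1
  have c3 := abs_le.mp b3
  refine ⟨g, hgx, ?_, ?_⟩
  · intro h2
    have h3 : g = (g.1, 0) := by
      ext
      · rfl
      · exact h2
    have h4 := hper x g.1 (by rw [← h3]; exact hgx)
    rw [e1] at h4
    linarith [c1.1, c1.2, c3.1, c3.2]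
  · rw [e2]
    calc |p.2 - q.2| ≤ |p.2| + |q.2| := abs_sub _ _
      _ < δ := by linarith

theorem inv_aux [TopologicalSpace M] {V : Type w} [TopologicalSpace V] [T2Space V] {a : M → V}
    (ha : Continuous a)
    (hact : Continuous (fun p : (ℝ × ℝ) × M => act φ ψ p.1 p.2))
    (h0 : ∀ x, act φ ψ 0 x = x)
    (hadd : ∀ γ γ' x, act φ ψ (γ + γ') x = act φ ψ γ (act φ ψ γ' x))
    (hsm : ∀ x, ∀ δ > 0, ∃ γ : ℝ × ℝ, act φ ψ γ x = x ∧ γ.2 ≠ 0 ∧ |γ.2| < δ)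
    (hinv : ∀ x (t : ℝ), a (act φ ψ (t, 0) x) = a x) (γ : ℝ × ℝ) (x : M) :
    a (act φ ψ γ x) = a x := by
  have key : ∀ q : ℝ, a (act φ ψ (0, q) x) = a x := by
    intro q
    have hc : Continuous (fun s : ℝ => a (act φ ψ (0, s) x)) := by
      have : Continuous (fun s : ℝ => ((((0 : ℝ), s), x) : (ℝ × ℝ) × M)) := by fun_prop
      exact ha.comp (hact.comp this)
    have hcl : IsClosed {s : ℝ | a (act φ ψ (0, s) x) = a x} := isClosed_eq hc continuous_const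
    have hmem : q ∈ closure {s : ℝ | a (act φ ψ (0, s) x) = a x} := by
      rw [Metric.mem_closure_iff]
      intro ε hε
      obtain ⟨g, hg1, hg2, hg3⟩ := hsm x ε hε
      refine ⟨(round (q / g.2) : ℝ) * g.2, ?_, ?_⟩
      · have h1 := act_zsmul h0 hadd hg1 (round (q / g.2))
        have h2 : (((0 : ℝ), (round (q / g.2) : ℝ) * g.2) : ℝ × ℝ) =
            (-((round (q / g.2) : ℝ) * g.1), 0) + round (q / g.2) • g := by
          ext
          · simp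
          · simp
        show a (act φ ψ (0, (round (q / g.2) : ℝ) * g.2) x) = a x
        rw [h2, hadd, h1, hinv]
      · rw [Real.dist_eq]
        have h3 : q - (round (q / g.2) : ℝ) * g.2 = (q / g.2 - round (q / g.2)) * g.2 := by
          field_simp
        rw [h3, abs_mul]
        have h4 := abs_sub_round (q / g.2)
        have h5 := abs_pos.mpr hg2
        nlinarith
    rw [hcl.closure_eq] at hmem
    exact hmem
  have h6 : γ = (γ.1, 0) + (0, γ.2) := by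
    ext <;> simp
  rw [h6, hadd, hinv, key]

end

theorem small : SmallStm.{u, v, w} := by
  intro E _ _ M _ _ _ _ W _ _ f φ ψ hf hact h0 hadd hfi hloc hper
  have hloc' : ∀ x₀ : M, ∃ U : Set M, U ∈ 𝓝 x₀ ∧ ∃ τ : M → ℝ × ℝ, ContinuousAt τ x₀ ∧ τ x₀ = 0 ∧
      (∀ x ∈ U, ∀ x' ∈ U, f x = f x' → act φ ψ (τ x - τ x') x' = x) := by
    intro x₀
    obtain ⟨U, hU, hx, τ, hτ, hτ0, hτ1, -⟩ := hloc x₀
    exact ⟨U, hU.mem_nhds hx, τ, hτ.continuousOn.continuousAt (hU.mem_nhds hx), hτ0, hτ1⟩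
  have hsm : ∀ x, ∀ δ > 0, ∃ γ : ℝ × ℝ, act φ ψ γ x = x ∧ γ.2 ≠ 0 ∧ |γ.2| < δ := by
    intro x δ hδ
    obtain ⟨γ, h1, h2, h3⟩ := small_aux h0 hadd hfi hloc' hper x (min δ (1 / 2))
      (by positivity) (min_le_right _ _)
    exact ⟨γ, h1, h2, h3.trans_le (min_le_left _ _)⟩
  refine ⟨hsm, ?_⟩
  intro V _ _ a ha hinv γ x
  exact inv_aux ha hact h0 hadd hsm hinv γ x

end Pool.Agent.N79.WF
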